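import Pool.Agent.Helper8.LIFT.PseudoXor

/-!
# BB: independent variables of an expanding system of parity equations of bounded degree

If the variables of `W` are far from each other then no sum of few equations is contained in `W`:
each variable of the sum has three private equations.
-/

set_option autoImplicit false

open scoped BigOperators

namespace BB

open Finset SDX SDX.h8

section
variable {ι κ : Type} [Fintype ι] [DecidableEq ι] [Fintype κ] [DecidableEq κ]

/-- the neighbours of a variable, and the variable -/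
def nb (A : κ → Finset ι) (v : ι) : Finset ι :=
  insert v ((univ.filter fun e => v ∈ A e).biUnion A)

/-- the ball of radius `k` -/
def ball (A : κ → Finset ι) : ℕ → ι → Finset ι
  | 0, v => {v}
  | k + 1, v => (ball A k v).biUnion (nb A)

theorem mem_nb {A : κ → Finset ι} {v w : ι} : w ∈ nb A v ↔ w = v ∨ ∃ e, v ∈ A e ∧ w ∈ A e := by
  simp only [nb, mem_insert, mem_biUnion, mem_filter, mem_univ, true_and]

theorem mem_nb_symm {A : κ → Finset ι} {v w : ι} (h : w ∈ nb A v) : v ∈ nb A w := by
  rw [mem_nb] at h ⊢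
  rcases h with h | ⟨e, h1, h2⟩
  · exact Or.inl h.symm
  · exact Or.inr ⟨e, h2, h1⟩

theorem self_mem_nb (A : κ → Finset ι) (v : ι) : v ∈ nb A v := mem_nb.2 (Or.inl rfl)

theorem mem_ball_succ {A : κ → Finset ι} {k : ℕ} {v w : ι} :
    w ∈ ball A (k + 1) v ↔ ∃ u ∈ ball A k v, w ∈ nb A u := by
  rw [ball, mem_biUnion]

theorem mem_ball_one {A : κ → Finset ι} {v w : ι} : w ∈ ball A 1 v ↔ w ∈ nb A v := by
  rw [mem_ball_succ]
  simp [ball]

theorem ball_add {A : κ → Finset ι} {k l : ℕ} {v w u : ι} (h : w ∈ ball A k v)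
    (h' : u ∈ ball A l w) : u ∈ ball A (k + l) v := by
  induction l generalizing u with
  | zero =>
    rw [ball, mem_singleton] at h'
    rw [h', add_zero]
    exact h
  | succ l ih =>
    rw [mem_ball_succ] at h'
    obtain ⟨u', h1, h2⟩ := h'
    rw [← add_assoc, mem_ball_succ]
    exact ⟨u', ih h1, h2⟩

theorem ball_symm {A : κ → Finset ι} {k : ℕ} {v w : ι} (h : w ∈ ball A k v) : v ∈ ball A k w := by
  induction k generalizing w with
  | zero =>
    rw [ball, mem_singleton] at h ⊢
    exact h.symm
  | succ k ih =>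
    rw [mem_ball_succ] at h
    obtain ⟨u, h1, h2⟩ := h
    have := ball_add (mem_ball_one.2 (mem_nb_symm h2)) (ih h1)
    rwa [add_comm] at this

theorem ball_mono {A : κ → Finset ι} {k l : ℕ} (hkl : k ≤ l) {v w : ι} (h : w ∈ ball A k v) :
    w ∈ ball A l v := by
  induction l, hkl using Nat.le_induction with
  | base => exact h
  | succ l _ ih => exact mem_ball_succ.2 ⟨w, ih, self_mem_nb A w⟩

theorem self_mem_ball (A : κ → Finset ι) (k : ℕ) (v : ι) : v ∈ ball A k v :=
  ball_mono (Nat.zero_le k) (by rw [ball, mem_singleton])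

theorem card_nb {A : κ → Finset ι} {Δ : ℕ} (hA : ∀ e, (A e).card = 3)
    (hΔ : ∀ v, (univ.filter fun e => v ∈ A e).card ≤ Δ) (v : ι) : (nb A v).card ≤ 3 * Δ + 1 := by
  refine (card_insert_le _ _).trans (Nat.add_le_add_right ?_ 1)
  refine (card_biUnion_le_card_mul _ _ 3 fun e _ => (hA e).le).trans ?_
  rw [mul_comm]
  exact Nat.mul_le_mul_left _ (hΔ v)

theorem card_ball {A : κ → Finset ι} {Δ : ℕ} (hA : ∀ e, (A e).card = 3)
    (hΔ : ∀ v, (univ.filter fun e => v ∈ A e).card ≤ Δ) (k : ℕ) (v : ι) :
    (ball A k v).card ≤ (3 * Δ + 1) ^ k := by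
  induction k with
  | zero => simp [ball]
  | succ k ih =>
    rw [ball, pow_succ]
    exact (card_biUnion_le_card_mul _ _ _ fun u _ => card_nb hA hΔ u).trans
      (Nat.mul_le_mul_right _ ih)

/-- each set of variables contains a large set of variables which are far from each other -/
theorem exists_sep (A : κ → Finset ι) (K : ℕ) (hK : ∀ v, (ball A 5 v).card ≤ K) (W : Finset ι) :
    ∃ W₂ ⊆ W, (∀ v ∈ W₂, ∀ w ∈ W₂, w ∈ ball A 5 v → w = v) ∧ W.card ≤ K * W₂.card := by
  classical
  obtain ⟨W₂, hW₂, hmax⟩ := exists_max_image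
    (W.powerset.filter fun U => ∀ v ∈ U, ∀ w ∈ U, w ∈ ball A 5 v → w = v) card
    ⟨∅, by simp⟩
  rw [mem_filter, mem_powerset] at hW₂
  refine ⟨W₂, hW₂.1, hW₂.2, ?_⟩
  have hsub : W ⊆ W₂.biUnion (ball A 5) := by
    intro w hw
    rw [mem_biUnion]
    by_cases hw2 : w ∈ W₂
    · exact ⟨w, hw2, self_mem_ball A 5 w⟩
    · by_contra hcon
      push Not at hcon
      have h1 := hmax (insert w W₂) (by
        rw [mem_filter, mem_powerset]
        refine ⟨insert_subset hw hW₂.1, fun v hv u hu huv => ?_⟩
        rw [mem_insert] at hv hu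
        rcases hv with rfl | hv <;> rcases hu with rfl | hu
        · rfl
        · exact absurd (ball_symm huv) (hcon u hu)
        · exact absurd huv (hcon v hv)
        · exact hW₂.2 v hv u hu huv)
      rw [card_insert_of_notMem hw2] at h1
      omega
  refine (card_le_card hsub).trans ?_
  rw [mul_comm]
  exact card_biUnion_le_card_mul _ _ _ fun v _ => hK v

/-- no sum of few equations is a nonempty... set of variables which are far from each other -/
theorem no_odd {A : κ → Finset ι} {s : ℕ} (hA : ∀ e, (A e).card = 3) (hexp : Expand A s)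
    {W : Finset ι} (hW : ∀ v ∈ W, ∀ w ∈ W, w ∈ ball A 5 v → w = v) {C : Finset κ}
    (hC : C.Nonempty) (hCs : C.card ≤ s) (hCW : bsum A C ⊆ W) : False := by
  classical
  -- variables near to `v` have even degree
  have heven : ∀ v ∈ bsum A C, ∀ u ∈ ball A 2 v, u ≠ v → ∀ e ∈ C, u ∈ A e →
      ∃ e' ∈ C, e' ≠ e ∧ u ∈ A e' := by
    intro v hv u hu huv e he hue
    by_contra hcon
    push Not at hcon
    have h1 : (C.filter fun j => u ∈ A j) = {e} := by
      ext j
      rw [mem_filter, mem_singleton]
      constructor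
      · rintro ⟨hj, huj⟩
        by_contra hne
        exact hcon j hj hne huj
      · rintro rfl
        exact ⟨he, hue⟩
    have h2 : u ∈ bsum A C := by
      rw [mem_bsum, h1, card_singleton]
      exact odd_one
    exact huv (hW v (hCW hv) u (hCW h2) (ball_mono (by norm_num) hu))
  let P : ι → Finset κ := fun v => C.filter fun e => ∃ w ∈ ball A 2 v, w ∈ A e
  have hP : ∀ v ∈ bsum A C, 3 ≤ (P v).card := by
    intro v hv
    have h1 : (C.filter fun j => v ∈ A j).Nonempty := by
      rw [← card_pos]
      exact (mem_bsum.1 hv).pos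
    obtain ⟨j₁, hj₁⟩ := h1
    rw [mem_filter] at hj₁
    obtain ⟨hj₁, hvj₁⟩ := hj₁
    -- the other variables
    have h2 : ((A j₁).erase v).card = 2 := by rw [card_erase_of_mem hvj₁, hA]
    obtain ⟨u₁, u₂, hu12, hu⟩ := card_eq_two.1 h2
    have hu₁ : u₁ ∈ (A j₁).erase v := by rw [hu]; exact mem_insert_self _ _
    have hu₂ : u₂ ∈ (A j₁).erase v := by
      rw [hu]
      exact mem_insert_of_mem (mem_singleton_self _)
    rw [mem_erase] at hu₁ hu₂
    have hb₁ : u₁ ∈ ball A 1 v := mem_ball_one.2 (mem_nb.2 (Or.inr ⟨j₁, hvj₁, hu₁.2⟩))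
    have hb₂ : u₂ ∈ ball A 1 v := mem_ball_one.2 (mem_nb.2 (Or.inr ⟨j₁, hvj₁, hu₂.2⟩))
    obtain ⟨j₂, hj₂, hj₂₁, huj₂⟩ := heven v hv u₁ (ball_mono (by norm_num) hb₁) hu₁.1 j₁ hj₁ hu₁.2
    obtain ⟨j₃, hj₃, hj₃₁, huj₃⟩ := heven v hv u₂ (ball_mono (by norm_num) hb₂) hu₂.1 j₁ hj₁ hu₂.2
    have hPmem : ∀ j ∈ C, ∀ w ∈ ball A 2 v, w ∈ A j → j ∈ P v := by
      intro j hj w hw hwj
      rw [mem_filter]
      exact ⟨hj, w, hw, hwj⟩
    have hP₁ : j₁ ∈ P v := hPmem j₁ hj₁ v (self_mem_ball A 2 v) hvj₁
    have hP₂ : j₂ ∈ P v := hPmem j₂ hj₂ u₁ (ball_mono (by norm_num) hb₁) huj₂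
    have hP₃ : j₃ ∈ P v := hPmem j₃ hj₃ u₂ (ball_mono (by norm_num) hb₂) huj₃
    by_cases h23 : j₂ = j₃
    · subst h23
      -- the third variable of `j₂`
      have h3 : ((A j₂).erase u₁).card = 2 := by rw [card_erase_of_mem huj₂, hA]
      have h4 : (((A j₂).erase u₁).erase u₂).card = 1 := by
        rw [card_erase_of_mem (mem_erase.2 ⟨hu12.symm, huj₃⟩), h3]
      obtain ⟨w, hw⟩ := card_eq_one.1 h4
      have hwm : w ∈ ((A j₂).erase u₁).erase u₂ := by rw [hw]; exact mem_singleton_self _
      rw [mem_erase, mem_erase] at hwm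
      obtain ⟨hwu₂, hwu₁, hwj₂⟩ := hwm
      have hA₁ : ∀ x, x ∈ A j₁ ↔ x = v ∨ x = u₁ ∨ x = u₂ := by
        intro x
        have h5 : x ∈ A j₁ ↔ x = v ∨ x ∈ (A j₁).erase v := by
          rw [mem_erase]
          constructor
          · intro h
            by_cases hx : x = v
            · exact Or.inl hx
            · exact Or.inr ⟨hx, h⟩
          · rintro (h | h)
            · rw [h]
              exact hvj₁
            · exact h.2
        rw [h5, hu, mem_insert, mem_singleton]
      have hA₂ : ∀ x, x ∈ A j₂ ↔ x = w ∨ x = u₁ ∨ x = u₂ := by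
        intro x
        have h5 : x ∈ ((A j₂).erase u₁).erase u₂ ↔ x = w := by rw [hw, mem_singleton]
        rw [mem_erase, mem_erase] at h5
        constructor
        · intro h
          by_cases h6 : x = u₁
          · exact Or.inr (Or.inl h6)
          · by_cases h7 : x = u₂
            · exact Or.inr (Or.inr h7)
            · exact Or.inl (h5.1 ⟨h7, h6, h⟩)
        · rintro (h | h | h)
          · rw [h]
            exact hwj₂
          · rw [h]
            exact huj₂
          · rw [h]
            exact huj₃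
      have hwv : w ≠ v := by
        rintro rfl
        have h5 : A j₁ = A j₂ := by
          ext x
          rw [hA₁, hA₂]
        have h6 : bsum A {j₁, j₂} = ∅ := by
          ext x
          rw [mem_bsum]
          have h7 : (({j₁, j₂} : Finset κ).filter fun j => x ∈ A j).card
              = if x ∈ A j₁ then 2 else 0 := by
            split_ifs with hx
            · have h8 : (({j₁, j₂} : Finset κ).filter fun j => x ∈ A j) = {j₁, j₂} := by
                rw [filter_eq_self]
                intro j hj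
                rw [mem_insert, mem_singleton] at hj
                rcases hj with rfl | rfl
                · exact hx
                · rw [← h5]
                  exact hx
              rw [h8, card_pair hj₂₁.symm]
            · rw [card_eq_zero, filter_eq_empty_iff]
              intro j hj
              rw [mem_insert, mem_singleton] at hj
              rcases hj with rfl | rfl
              · exact hx
              · rw [← h5]
                exact hx
          rw [h7]
          split_ifs <;> simp
        have h7 : ({j₁, j₂} : Finset κ) ⊆ C := by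
          intro j hj
          rw [mem_insert, mem_singleton] at hj
          rcases hj with rfl | rfl
          · exact hj₁
          · exact hj₂
        have h8 := hexp {j₁, j₂} ((card_le_card h7).trans hCs)
        rw [h6, card_pair hj₂₁.symm, card_empty] at h8
        omega
      have hbw : w ∈ ball A 2 v :=
        mem_ball_succ.2 ⟨u₁, hb₁, mem_nb.2 (Or.inr ⟨j₂, huj₂, hwj₂⟩)⟩
      obtain ⟨j₄, hj₄, hj₄₂, hwj₄⟩ := heven v hv w hbw hwv j₂ hj₂ hwj₂
      have hj₄₁ : j₄ ≠ j₁ := by
        rintro rfl
        rcases (hA₁ w).1 hwj₄ with h | h | h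
        · exact hwv h
        · exact hwu₁ h
        · exact hwu₂ h
      have hP₄ : j₄ ∈ P v := hPmem j₄ hj₄ w hbw hwj₄
      have h9 : ({j₁, j₂, j₄} : Finset κ) ⊆ P v := by
        intro j hj
        rw [mem_insert, mem_insert, mem_singleton] at hj
        rcases hj with rfl | rfl | rfl
        · exact hP₁
        · exact hP₂
        · exact hP₄
      have h10 : ({j₁, j₂, j₄} : Finset κ).card = 3 :=
        card_eq_three.2 ⟨j₁, j₂, j₄, hj₂₁.symm, hj₄₁.symm, hj₄₂.symm, rfl⟩
      rw [← h10]
      exact card_le_card h9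
    · have h9 : ({j₁, j₂, j₃} : Finset κ) ⊆ P v := by
        intro j hj
        rw [mem_insert, mem_insert, mem_singleton] at hj
        rcases hj with rfl | rfl | rfl
        · exact hP₁
        · exact hP₂
        · exact hP₃
      have h10 : ({j₁, j₂, j₃} : Finset κ).card = 3 :=
        card_eq_three.2 ⟨j₁, j₂, j₃, hj₂₁.symm, hj₃₁.symm, h23, rfl⟩
      rw [← h10]
      exact card_le_card h9
  have hdisj : ∀ v ∈ bsum A C, ∀ v' ∈ bsum A C, v ≠ v' → Disjoint (P v) (P v') := by
    intro v hv v' hv' hne
    rw [disjoint_left]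
    intro e he he'
    rw [mem_filter] at he he'
    obtain ⟨-, w, hw, hwe⟩ := he
    obtain ⟨-, w', hw', hwe'⟩ := he'
    have h1 : w' ∈ ball A (2 + 1) v :=
      ball_add hw (mem_ball_one.2 (mem_nb.2 (Or.inr ⟨e, hwe, hwe'⟩)))
    have h2 : v' ∈ ball A (2 + 1 + 2) v := ball_add h1 (ball_symm hw')
    exact hne (hW v (hCW hv) v' (hCW hv') h2).symm
  have h1 : 3 * (bsum A C).card ≤ C.card := by
    calc 3 * (bsum A C).card = ∑ _v ∈ bsum A C, 3 := by rw [sum_const, smul_eq_mul, mul_comm]
      _ ≤ ∑ v ∈ bsum A C, (P v).card := sum_le_sum hP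
      _ = ((bsum A C).biUnion P).card := (card_biUnion hdisj).symm
      _ ≤ C.card := card_le_card (biUnion_subset.2 fun v _ => filter_subset _ _)
  have h2 := hexp C hCs
  have h3 := card_pos.2 hC
  omega

end

end BB
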