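import Pool.Agent.Helper71.SDX.Marg
import Pool.Agent.BB.Indep

/-!
# BB: the pseudo-mass of a subcube is exponentially small in its codimension
-/

set_option autoImplicit false

open scoped BigOperators

namespace BB

open Finset SDX SDX.h71 SDX.h8

section
variable {ι : Type} [Fintype ι] [DecidableEq ι]

/-- the indicator function of a subcube -/
def ind (F : Finset ι) (a x : ι → Bool) : ℝ := if ∀ i ∈ F, x i = a i then 1 else 0

theorem ind_nonneg (F : Finset ι) (a x : ι → Bool) : 0 ≤ ind F a x := by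
  rw [ind]
  split_ifs <;> norm_num

theorem ind_eq_prod (F : Finset ι) (a x : ι → Bool) :
    ind F a x = ∏ i ∈ F, (1 + sg (a i) * sg (x i)) / 2 := by
  rw [ind]
  split_ifs with h
  · refine (prod_eq_one fun i hi => ?_).symm
    rw [h i hi, sg_mul_self]
    norm_num
  · push Not at h
    obtain ⟨i, hi, hne⟩ := h
    refine (prod_eq_zero hi ?_).symm
    cases hx : x i <;> cases ha : a i <;> simp_all [sg]

theorem ind_eq (F : Finset ι) (a : ι → Bool) :
    ind F a = fun x => ∑ B ∈ F.powerset, (chr B a / 2 ^ F.card) * chr B x := by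
  funext x
  rw [ind_eq_prod, prod_div_distrib, prod_const, prod_one_add, sum_div]
  refine sum_congr rfl fun B _ => ?_
  rw [prod_mul_distrib, chr, chr]
  ring

theorem coef_ind (F : Finset ι) (a : ι → Bool) (α : Finset ι) :
    coef α (ind F a) = if α ⊆ F then chr α a / 2 ^ F.card else 0 := by
  rw [ind_eq, coef_sum]
  simp only [coef_chr, mul_ite, mul_one, mul_zero]
  rw [sum_ite_eq F.powerset α]
  simp only [mem_powerset]

theorem ind_mem_Deg (F : Finset ι) (a : ι → Bool) {k : ℕ} (hk : F.card ≤ k) :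
    ind F a ∈ Deg ι k := by
  rw [ind_eq]
  exact sum_mem_Deg _ _ _ fun B hB =>
    chr_mem_Deg ((card_le_card (mem_powerset.1 hB)).trans hk)

/-- the mass of a subcube of independent variables -/
theorem mass_indep (D : (ι → Bool) → ℝ) (hD : coef ∅ D = 1) (W : Finset ι)
    (hW : ∀ B ⊆ W, B.Nonempty → coef B D = 0) (a : ι → Bool) :
    2 ^ W.card * ∑ y, D y * ind W a y = 2 ^ Fintype.card ι := by
  rw [sum_mul_eq, sum_eq_single ∅]
  · rw [hD, coef_ind, if_pos (empty_subset W), chr_empty]
    field_simp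
  · intro B _ hB
    rw [coef_ind]
    split_ifs with h
    · rw [hW B h (nonempty_iff_ne_empty.2 hB), zero_mul]
    · rw [mul_zero]
  · intro h
    exact absurd (mem_univ _) h

/-- the mass of a subcube is monotone in low degree -/
theorem mass_mono {d : ℕ} (D : (ι → Bool) → ℝ)
    (hpd : ∀ g ∈ Deg ι d, 0 ≤ ∑ y, D y * g y ^ 2) {W₂ W : Finset ι} (h : W₂ ⊆ W)
    (hW : W.card ≤ d) (a : ι → Bool) :
    ∑ y, D y * ind W a y ≤ ∑ y, D y * ind W₂ a y := by
  have h1 := hpd (ind W₂ a - ind W a) (Submodule.sub_mem _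
    (ind_mem_Deg W₂ a ((card_le_card h).trans hW)) (ind_mem_Deg W a hW))
  have h2 : ∀ y, D y * (ind W₂ a - ind W a) y ^ 2 = D y * ind W₂ a y - D y * ind W a y := by
    intro y
    rw [Pi.sub_apply]
    simp only [ind]
    by_cases h3 : ∀ i ∈ W, y i = a i
    · rw [if_pos h3, if_pos fun i hi => h3 i (h hi)]
      ring
    · rw [if_neg h3]
      split_ifs <;> ring
  simp only [h2, sum_sub_distrib] at h1
  linarith

end

/-- the mass of a subcube of the big cube -/
theorem mass_cube {m b : ℕ} (D : (Fin m → Bool) → ℝ) (S : Fin m → Fin b)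
    (F : Finset (Fin m × Fin b)) (a : Fin m × Fin b → Bool) :
    2 ^ F.card * 2 ^ m * ∑ x, ind F a x * D (rs S x)
      = 2 ^ (univ.filter fun j => (j, S j) ∈ F).card * 2 ^ (m * b)
        * ∑ y, D y * ind (univ.filter fun j => (j, S j) ∈ F) (rs S a) y := by
  classical
  set W : Finset (Fin m) := univ.filter fun j => (j, S j) ∈ F with hW
  have hinj : Function.Injective (fun j : Fin m => (j, S j)) := fun i j h => by
    simpa using congrArg Prod.fst h
  have h1 : ∀ x : Fin m × Fin b → Bool, D (rs S x)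
      = ∑ β, coef β D * chr (β.map ⟨fun j => (j, S j), hinj⟩) x := by
    intro x
    rw [inversion D (rs S x)]
    refine Finset.sum_congr rfl fun β _ => ?_
    unfold chr rs
    rw [Finset.prod_map]
    rfl
  have h2 : ∑ x, ind F a x * D (rs S x)
      = ∑ β, coef β D * (2 ^ (m * b) * coef (β.map ⟨fun j => (j, S j), hinj⟩) (ind F a)) := by
    simp only [h1, mul_sum]
    rw [sum_comm]
    refine sum_congr rfl fun β _ => ?_
    have h3 : 2 ^ (m * b) * coef (β.map ⟨fun j => (j, S j), hinj⟩) (ind F a)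
        = ∑ x, ind F a x * chr (β.map ⟨fun j => (j, S j), hinj⟩) x := by
      rw [coef, Fintype.card_prod, Fintype.card_fin, Fintype.card_fin]
      field_simp
    rw [h3, mul_sum]
    exact sum_congr rfl fun x _ => by ring
  have h3 : ∀ β : Finset (Fin m), coef (β.map ⟨fun j => (j, S j), hinj⟩) (ind F a)
      = if β ⊆ W then chr β (rs S a) / 2 ^ F.card else 0 := by
    intro β
    rw [coef_ind]
    have h4 : β.map ⟨fun j => (j, S j), hinj⟩ ⊆ F ↔ β ⊆ W := by
      constructor
      · intro h j hj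
        rw [hW, mem_filter]
        exact ⟨mem_univ _, h (mem_map.2 ⟨j, hj, rfl⟩)⟩
      · intro h f hf
        obtain ⟨j, hj, rfl⟩ := mem_map.1 hf
        exact (mem_filter.1 (h hj)).2
    have h5 : chr (β.map ⟨fun j => (j, S j), hinj⟩) a = chr β (rs S a) := by
      unfold chr rs
      rw [Finset.prod_map]
      rfl
    simp only [h4, h5]
  rw [h2, sum_mul_eq, Fintype.card_fin]
  simp only [h3, coef_ind]
  rw [mul_sum, mul_sum, mul_sum]
  refine sum_congr rfl fun β _ => ?_
  split_ifs
  · field_simp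
  · ring

/-- **the mass of a subcube is exponentially small** -/
theorem mass_cube_le {m b d K s : ℕ} {κ : Type} [Fintype κ] [DecidableEq κ]
    {A : κ → Finset (Fin m)} (hA : ∀ e, (A e).card = 3) (hexp : Expand A s)
    (hK : ∀ v, (ball A 5 v).card ≤ K) (D : (Fin m → Bool) → ℝ)
    (hDC : ∀ B, coef B D ≠ 0 → ∃ C : Finset κ, C.card ≤ s ∧ bsum A C = B)
    (hD1 : coef ∅ D = 1) (hpd : ∀ g ∈ Deg (Fin m) d, 0 ≤ ∑ y, D y * g y ^ 2)
    (S : Fin m → Fin b) (F : Finset (Fin m × Fin b)) (hF : F.card ≤ d)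
    (a : Fin m × Fin b → Bool) :
    2 ^ (F.card / K) * ∑ x, ind F a x * D (rs S x) ≤ 2 ^ (m * b) := by
  classical
  set W : Finset (Fin m) := univ.filter fun j => (j, S j) ∈ F with hW
  have hinj : Function.Injective (fun j : Fin m => (j, S j)) := fun i j h => by
    simpa using congrArg Prod.fst h
  have hWF : W.card ≤ F.card := by
    rw [← card_map ⟨fun j => (j, S j), hinj⟩]
    refine card_le_card fun f hf => ?_
    obtain ⟨j, hj, rfl⟩ := mem_map.1 hf
    exact (mem_filter.1 hj).2
  obtain ⟨W₂, hW₂, hsep, hcard⟩ := exists_sep A K hK W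
  have h1 := mass_cube D S F a
  rw [← hW] at h1
  have h2 := mass_mono D hpd hW₂ (hWF.trans hF) (rs S a)
  have h3 := mass_indep D hD1 W₂ (fun B hB hne => by
    by_contra hcon
    obtain ⟨C, hC, hCB⟩ := hDC B hcon
    have hCne : C.Nonempty := by
      rw [nonempty_iff_ne_empty]
      rintro rfl
      rw [bsum_empty] at hCB
      rw [← hCB] at hne
      exact not_nonempty_empty hne
    exact no_odd hA hexp hsep hCne hC (by rw [hCB]; exact hB)) (rs S a)
  rw [Fintype.card_fin] at h3
  set E : ℝ := ∑ x, ind F a x * D (rs S x) with hE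
  set G : ℝ := ∑ y, D y * ind W (rs S a) y with hG
  set G₂ : ℝ := ∑ y, D y * ind W₂ (rs S a) y with hG₂
  -- the exponents
  have hk : F.card / K + W.card ≤ F.card + W₂.card := by
    rcases Nat.eq_zero_or_pos K with hK0 | hK0
    · rw [hK0, Nat.div_zero]
      rw [hK0, zero_mul] at hcard
      omega
    · have h4 : F.card / K * K ≤ F.card := Nat.div_mul_le_self _ _
      have h5 : (F.card / K - W₂.card) * K ≤ F.card - W.card := by
        rw [Nat.sub_mul]
        have : K * W₂.card = W₂.card * K := mul_comm _ _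
        omega
      have h6 : F.card / K - W₂.card ≤ (F.card / K - W₂.card) * K := Nat.le_mul_of_pos_right _ hK0
      omega
  have h4 : (2 : ℝ) ^ (F.card / K) * 2 ^ W.card ≤ 2 ^ F.card * 2 ^ W₂.card := by
    rw [← pow_add, ← pow_add]
    exact pow_le_pow_right₀ (by norm_num) hk
  have hG₂0 : 0 ≤ G₂ := by
    have h5 : (0 : ℝ) < 2 ^ W₂.card := by positivity
    have h6 : (0 : ℝ) < 2 ^ m := by positivity
    by_contra hcon
    push Not at hcon
    have := mul_neg_of_pos_of_neg h5 hcon
    linarith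
  have h5 : (2 : ℝ) ^ F.card * 2 ^ m * (2 ^ (F.card / K) * E)
      ≤ 2 ^ F.card * 2 ^ m * 2 ^ (m * b) := by
    calc (2 : ℝ) ^ F.card * 2 ^ m * (2 ^ (F.card / K) * E)
        = 2 ^ (F.card / K) * (2 ^ F.card * 2 ^ m * E) := by ring
      _ = 2 ^ (F.card / K) * (2 ^ W.card * 2 ^ (m * b) * G) := by rw [h1]
      _ ≤ 2 ^ (F.card / K) * (2 ^ W.card * 2 ^ (m * b) * G₂) := by gcongr
      _ = (2 ^ (F.card / K) * 2 ^ W.card) * (2 ^ (m * b) * G₂) := by ring
      _ ≤ (2 ^ F.card * 2 ^ W₂.card) * (2 ^ (m * b) * G₂) := by gcongr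
      _ = 2 ^ F.card * 2 ^ (m * b) * (2 ^ W₂.card * G₂) := by ring
      _ = 2 ^ F.card * 2 ^ m * 2 ^ (m * b) := by rw [h3]; ring
  exact le_of_mul_le_mul_left h5 (by positivity)

end BB
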