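import Pool.Agent.LIFT.Numbers4

/-!
# BB: the numbers

`lam`, `b`, `c`, `κ` are constants, `q = n / (3 b)`, `d₀ = κ q` is the depth of the truncated trees.
-/

set_option autoImplicit false

open Filter Topology

namespace BB

open LIFT LIFT.h44

/-- `24 ^ (3 q)` with the factor `r` -/
theorem sqrt24r (q : ℕ) {r : ℝ} (h0 : 0 ≤ r) (hr : r ≤ 2 * Real.exp (q / 2)) :
    Real.sqrt (24 ^ (3 * q) * r) ≤ 2 * Real.exp (11 / 2 * q) := LIFT.h44.sqrt24r q h0 hr

/-- everything for one `q` -/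
theorem in_q6 (β' γ : ℝ) (hβ : 0 < β') (hγ : 0 < γ) (q₀ b₀ : ℕ) :
    ∃ (lam : ℝ) (b : ℕ), 1 < lam ∧ 0 < b ∧ b₀ ≤ b ∧ lam ^ 8 ≤ 4 * b ∧
      ∃ q₁ : ℕ, ∀ q : ℕ, q₁ ≤ q → q₀ ≤ q ∧ 12 ≤ q ∧ 32 ≤ β' * q ∧
      ∀ x : ℝ, x ≤ q / 2 →
      ∀ d k r : ℕ, β' * q ≤ d + 1 → β' * q ≤ k → 0 < r → (r : ℝ) ≤ 2 * Real.exp (q / 2) →
        2 * 2 ^ (3 * q) / lam ^ (d + 1) * Real.sqrt (24 ^ (3 * q)) ≤ γ / 2 ∧
        Real.exp (q / 4) * Real.exp (-(q / 2 : ℝ)) + Real.exp (q / 4) *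
          (2 * 2 ^ (3 * q) / lam ^ (d + 1) * Real.sqrt (24 ^ (3 * q))) ≤ γ / 2 ∧
        2 * (2 * 2 ^ (3 * q) * (4 * r / Real.exp (-(q / 2 : ℝ))) / lam ^ (d + 1)
            * Real.sqrt (24 ^ (3 * q) * r))
          + Real.exp (-x) * (2 * 2 ^ (3 * q) / lam ^ (d + 1) * Real.sqrt (24 ^ (3 * q)))
          + Real.exp (-x) * Real.exp (-(q / 2 : ℝ)) / 8 + Real.sqrt (2 ^ (3 * q) / (b : ℝ) ^ k)
          < Real.exp (-x) * Real.exp (-(q / 2 : ℝ)) / 2 := by
  set lam : ℝ := Real.exp (20 / β') with hlam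
  have hlam1 : 1 < lam := Real.one_lt_exp_iff.2 (by positivity)
  obtain ⟨b, hb⟩ := exists_nat_ge (max (max (b₀ : ℝ) (lam ^ 8)) (max (Real.exp (10 / β')) 1))
  have hb1 : (b₀ : ℝ) ≤ b := le_trans (le_trans (le_max_left _ _) (le_max_left _ _)) hb
  have hb2 : lam ^ 8 ≤ b := le_trans (le_trans (le_max_right _ _) (le_max_left _ _)) hb
  have hb3 : Real.exp (10 / β') ≤ b := le_trans (le_trans (le_max_left _ _) (le_max_right _ _)) hb
  have hb4 : (1 : ℝ) ≤ b := le_trans (le_trans (le_max_right _ _) (le_max_right _ _)) hb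
  have hb0 : (0 : ℝ) < b := by linarith
  have hqr : Tendsto (fun q : ℕ => β' * (q : ℝ)) atTop atTop :=
    tendsto_natCast_atTop_atTop.const_mul_atTop hβ
  have hex0 : Tendsto (fun q : ℕ => Real.exp (-(1 / 4 * (q : ℝ)))) atTop (𝓝 0) :=
    Real.tendsto_exp_neg_atTop_nhds_zero.comp
      (tendsto_natCast_atTop_atTop.const_mul_atTop (by norm_num))
  have hT : 0 < γ / 4 := by positivity
  obtain ⟨q₁, hq₁⟩ := ((hex0.eventually (gt_mem_nhds hT)).and
    ((hqr.eventually_ge_atTop 32).and (eventually_ge_atTop (q₀ + 12)))).exists_forall_of_atTop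
  refine ⟨lam, b, hlam1, by exact_mod_cast hb0, by exact_mod_cast hb1, by linarith, q₁,
    fun q hq => ?_⟩
  obtain ⟨h1, h2, h3⟩ := hq₁ q hq
  have hq0 : (12 : ℝ) ≤ q := by
    have : 12 ≤ q := by omega
    exact_mod_cast this
  refine ⟨by omega, by omega, h2, ?_⟩
  intro x hx d k r hd hk hr hr2
  have hr0 : (0 : ℝ) < r := by exact_mod_cast hr
  set δ : ℝ := Real.exp (-x) with hδ
  have hδ0 : 0 < δ := Real.exp_pos _
  have hδq : Real.exp (-(q / 2 : ℝ)) ≤ δ := Real.exp_le_exp.2 (by linarith)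
  have g1 : (2 : ℝ) ^ (3 * q) ≤ Real.exp (21 / 10 * q) := by
    refine (two_pow_le (3 * q)).trans (Real.exp_le_exp.2 (le_of_eq ?_))
    push_cast
    ring
  have g4 : Real.exp (20 * q) ≤ lam ^ (d + 1) := by
    rw [hlam, ← Real.exp_nat_mul]
    apply Real.exp_le_exp.2
    push_cast
    have g5 : (20 : ℝ) * q = 20 / β' * (β' * q) := by
      field_simp
    rw [g5, mul_comm ((d : ℝ) + 1)]
    exact mul_le_mul_of_nonneg_left hd (by positivity)
  -- `exp (- 10 q)` is tiny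
  have g6 : 64 * Real.exp (-(10 * q : ℝ)) ≤ 1 / 16 * Real.exp (-(q : ℝ)) := by
    have e1 : Real.exp (-(10 * q : ℝ)) = Real.exp (-(q : ℝ)) * Real.exp (-(9 * q : ℝ)) := by
      rw [← Real.exp_add]
      congr 1
      ring
    have e2 : Real.exp (-(9 * q : ℝ)) ≤ Real.exp (-10) := Real.exp_le_exp.2 (by linarith)
    have e3 : (1024 : ℝ) ≤ Real.exp 10 := by
      have e4 : (2 : ℝ) ≤ Real.exp 1 := by
        have := Real.add_one_le_exp (1 : ℝ)
        linarith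
      have e5 : Real.exp 10 = Real.exp 1 ^ 10 := by
        rw [← Real.exp_nat_mul]
        norm_num
      rw [e5]
      calc (1024 : ℝ) = 2 ^ 10 := by norm_num
        _ ≤ Real.exp 1 ^ 10 := pow_le_pow_left₀ (by norm_num) e4 10
    have e4 : Real.exp (-10) ≤ 1 / 1024 := by
      rw [Real.exp_neg, one_div]
      exact inv_anti₀ (by norm_num) e3
    have e5 := Real.exp_pos (-(q : ℝ))
    rw [e1]
    nlinarith
  -- the factor without `r`
  have fA : 2 * 2 ^ (3 * q) / lam ^ (d + 1) * Real.sqrt (24 ^ (3 * q))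
      ≤ 2 * Real.exp (-(10 * q : ℝ)) := by
    have e1 : 2 * 2 ^ (3 * q) / lam ^ (d + 1) * Real.sqrt (24 ^ (3 * q)) ≤
        2 * Real.exp (21 / 10 * q) / Real.exp (20 * q) * Real.exp (11 / 2 * q) := by
      have := sqrt24 q
      gcongr
    refine e1.trans ?_
    have e2 : 2 * Real.exp (21 / 10 * (q : ℝ)) / Real.exp (20 * q) * Real.exp (11 / 2 * q) =
        2 * (Real.exp (21 / 10 * q) * (Real.exp (20 * q))⁻¹ * Real.exp (11 / 2 * q)) := by ring
    rw [e2, ← Real.exp_neg, ← Real.exp_add, ← Real.exp_add]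
    have e3 : Real.exp (21 / 10 * (q : ℝ) + -(20 * q) + 11 / 2 * q) ≤ Real.exp (-(10 * q : ℝ)) :=
      Real.exp_le_exp.2 (by linarith)
    linarith
  have hθ0 : 0 ≤ 2 * 2 ^ (3 * q) / lam ^ (d + 1) * Real.sqrt (24 ^ (3 * q)) := by positivity
  -- the term with `r`
  have fB : 2 * (2 * 2 ^ (3 * q) * (4 * r / Real.exp (-(q / 2 : ℝ))) / lam ^ (d + 1) *
      Real.sqrt (24 ^ (3 * q) * r)) ≤ 64 * Real.exp (-(10 * q : ℝ)) := by
    have e1 : 2 * (2 * 2 ^ (3 * q) * (4 * r / Real.exp (-(q / 2 : ℝ))) / lam ^ (d + 1) *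
        Real.sqrt (24 ^ (3 * q) * r)) ≤
        2 * (2 * Real.exp (21 / 10 * q) * (4 * (2 * Real.exp (q / 2)) / Real.exp (-(q / 2 : ℝ)))
          / Real.exp (20 * q) * (2 * Real.exp (11 / 2 * q))) := by
      have := sqrt24r q hr0.le hr2
      gcongr
    refine e1.trans ?_
    have e2 : 2 * (2 * Real.exp (21 / 10 * (q : ℝ)) * (4 * (2 * Real.exp (q / 2))
          / Real.exp (-(q / 2 : ℝ))) / Real.exp (20 * q) * (2 * Real.exp (11 / 2 * q))) =
        64 * (Real.exp (21 / 10 * q) * Real.exp (q / 2) * (Real.exp (-(q / 2 : ℝ)))⁻¹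
          * (Real.exp (20 * q))⁻¹ * Real.exp (11 / 2 * q)) := by ring
    rw [e2, ← Real.exp_neg, ← Real.exp_neg, ← Real.exp_add, ← Real.exp_add, ← Real.exp_add,
      ← Real.exp_add]
    refine mul_le_mul_of_nonneg_left (Real.exp_le_exp.2 ?_) (by norm_num)
    linarith
  -- the last term
  have fD : Real.sqrt (2 ^ (3 * q) / (b : ℝ) ^ k) ≤ 1 / 16 * Real.exp (-(q : ℝ)) := by
    rw [Real.sqrt_le_left (by positivity)]
    have k2 : Real.exp (10 * q) ≤ (b : ℝ) ^ k := by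
      refine le_trans ?_ (pow_le_pow_left₀ (Real.exp_pos _).le hb3 k)
      rw [← Real.exp_nat_mul]
      apply Real.exp_le_exp.2
      have g5 : (10 : ℝ) * q = 10 / β' * (β' * q) := by
        field_simp
      rw [g5, mul_comm (k : ℝ)]
      exact mul_le_mul_of_nonneg_left hk (by positivity)
    have k3 : (2 : ℝ) ^ (3 * q) / (b : ℝ) ^ k ≤ Real.exp (21 / 10 * q) / Real.exp (10 * q) := by
      gcongr
    refine k3.trans ?_
    have k4 : Real.exp (21 / 10 * q) / Real.exp (10 * q) ≤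
        Real.exp (-(q : ℝ)) ^ 2 * Real.exp (-10) := by
      rw [← Real.exp_sub, ← Real.exp_nat_mul, ← Real.exp_add]
      apply Real.exp_le_exp.2
      push_cast
      linarith
    refine k4.trans ?_
    have k5 : (1 / 16 * Real.exp (-(q : ℝ))) ^ 2 = Real.exp (-(q : ℝ)) ^ 2 * (1 / 256) := by ring
    rw [k5]
    refine mul_le_mul_of_nonneg_left ?_ (by positivity)
    have e4 : (2 : ℝ) ≤ Real.exp 1 := by
      have := Real.add_one_le_exp (1 : ℝ)
      linarith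
    have e5 : Real.exp 10 = Real.exp 1 ^ 10 := by
      rw [← Real.exp_nat_mul]
      norm_num
    have e6 : (256 : ℝ) ≤ Real.exp 10 := by
      rw [e5]
      calc (256 : ℝ) ≤ 2 ^ 10 := by norm_num
        _ ≤ Real.exp 1 ^ 10 := pow_le_pow_left₀ (by norm_num) e4 10
    rw [Real.exp_neg, one_div]
    exact inv_anti₀ (by norm_num) e6
  have hqγ : Real.exp (-(1 / 4 * (q : ℝ))) < γ / 4 := h1
  have hq4 : Real.exp (-(10 * q : ℝ)) * Real.exp (q / 4) ≤ Real.exp (-(1 / 4 * (q : ℝ))) := by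
    rw [← Real.exp_add]
    exact Real.exp_le_exp.2 (by linarith)
  have h10 : Real.exp (-(10 * q : ℝ)) ≤ Real.exp (-(1 / 4 * (q : ℝ))) :=
    Real.exp_le_exp.2 (by linarith)
  have h64 : 64 * Real.exp (-(10 * q : ℝ)) ≤ Real.exp (-(1 / 4 * (q : ℝ))) := by
    have e1 : Real.exp (-(q : ℝ)) ≤ Real.exp (-(1 / 4 * (q : ℝ))) :=
      Real.exp_le_exp.2 (by linarith)
    have e2 := Real.exp_pos (-(q : ℝ))
    linarith
  refine ⟨by linarith, ?_, ?_⟩
  · have e1 : Real.exp (q / 4) * Real.exp (-(q / 2 : ℝ)) = Real.exp (-(1 / 4 * (q : ℝ))) := by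
      rw [← Real.exp_add]
      congr 1
      ring
    have e2 : Real.exp (q / 4) * (2 * 2 ^ (3 * q) / lam ^ (d + 1) * Real.sqrt (24 ^ (3 * q)))
        ≤ Real.exp (q / 4) * (2 * Real.exp (-(10 * q : ℝ))) :=
      mul_le_mul_of_nonneg_left fA (Real.exp_pos _).le
    have e3 : Real.exp (q / 4) * (2 * Real.exp (-(10 * q : ℝ))) ≤ Real.exp (-(1 / 4 * (q : ℝ))) := by
      have e4 : Real.exp (q / 4) ≤ Real.exp (9 * q) := Real.exp_le_exp.2 (by linarith)
      have e5 : Real.exp (9 * (q : ℝ)) * Real.exp (-(10 * q : ℝ)) = Real.exp (-(q : ℝ)) := by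
        rw [← Real.exp_add]
        congr 1
        ring
      have e6 : Real.exp (-(q : ℝ)) ≤ 1 / 2 * Real.exp (-(1 / 4 * (q : ℝ))) := by
        have e7 : Real.exp (-(q : ℝ)) = Real.exp (-(1 / 4 * (q : ℝ))) * Real.exp (-(3 / 4 * q)) := by
          rw [← Real.exp_add]
          congr 1
          ring
        have e8 : Real.exp (-(3 / 4 * (q : ℝ))) ≤ Real.exp (-1) :=
          Real.exp_le_exp.2 (by linarith)
        have e9 : Real.exp (-1) ≤ 1 / 2 := by
          rw [Real.exp_neg, one_div]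
          refine inv_anti₀ (by norm_num) ?_
          have := Real.add_one_le_exp (1 : ℝ)
          linarith
        have e10 := Real.exp_pos (-(1 / 4 * (q : ℝ)))
        rw [e7]
        nlinarith
      calc Real.exp (q / 4) * (2 * Real.exp (-(10 * q : ℝ)))
          ≤ Real.exp (9 * q) * (2 * Real.exp (-(10 * q : ℝ))) := by gcongr
        _ = 2 * (Real.exp (9 * q) * Real.exp (-(10 * q : ℝ))) := by ring
        _ ≤ _ := by rw [e5]; linarith
    rw [e1]
    linarith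
  · have hqq : Real.exp (-(q : ℝ)) = Real.exp (-(q / 2 : ℝ)) * Real.exp (-(q / 2 : ℝ)) := by
      rw [← Real.exp_add]
      congr 1
      ring
    have hpos : 0 < Real.exp (-(q / 2 : ℝ)) := Real.exp_pos _
    have hδγ : Real.exp (-(q : ℝ)) ≤ δ * Real.exp (-(q / 2 : ℝ)) := by
      rw [hqq]
      exact mul_le_mul_of_nonneg_right hδq hpos.le
    have fC : δ * (2 * 2 ^ (3 * q) / lam ^ (d + 1) * Real.sqrt (24 ^ (3 * q)))
        ≤ δ * (1 / 16 * Real.exp (-(q / 2 : ℝ))) := by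
      refine mul_le_mul_of_nonneg_left (fA.trans ?_) hδ0.le
      have e1 : Real.exp (-(q : ℝ)) ≤ Real.exp (-(q / 2 : ℝ)) := Real.exp_le_exp.2 (by linarith)
      have e2 := Real.exp_pos (-(10 * q : ℝ))
      linarith
    have hpos2 : 0 < δ * Real.exp (-(q / 2 : ℝ)) := by positivity
    linarith

/-- the numbers -/
theorem numbers6 (β' γ : ℝ) (hβ : 0 < β') (hγ : 0 < γ) (q₀ b₀ K : ℕ) (hK : 0 < K) :
    ∃ (lam c : ℝ) (b : ℕ), 1 < lam ∧ 0 < c ∧ 0 < b ∧ b₀ ≤ b ∧ lam ^ 8 ≤ 4 * b ∧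
      ∃ n₀ : ℕ, ∀ n : ℕ, n₀ ≤ n → ∃ q d₀ : ℕ, q₀ ≤ q ∧ 0 < q ∧ (3 * q) * b ≤ n ∧
      n ≤ (3 * q) * b + 3 * b ∧ 32 ≤ β' * q ∧ (d₀ : ℝ) ≤ β' * q - 1 ∧
      ∃ P γ' : ℝ, 0 < γ' ∧ γ' ≤ 1 ∧ 0 ≤ P ∧
      (96 * (b : ℝ)) ^ d₀ * (1 + 2 * (1 / (96 * b))) ^ n ≤ P ∧
      ∀ d k r : ℕ, β' * q ≤ d + 1 → β' * q ≤ k → 0 < r → (r : ℝ) ≤ Real.exp (c * n) + 1 →
        2 * 2 ^ (3 * q) / lam ^ (d + 1) * Real.sqrt (24 ^ (3 * q)) ≤ γ / 2 ∧
        P * γ' + P * (2 * 2 ^ (3 * q) / lam ^ (d + 1) * Real.sqrt (24 ^ (3 * q)))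
          + Real.exp (c * n) / 2 ^ ((d₀ - 3 * b) / K) < γ ∧
        2 * (2 * 2 ^ (3 * q) * (4 * r / γ') / lam ^ (d + 1) * Real.sqrt (24 ^ (3 * q) * r))
          + Real.exp (-(c * n)) * (2 * 2 ^ (3 * q) / lam ^ (d + 1) * Real.sqrt (24 ^ (3 * q)))
          + Real.exp (-(c * n)) * γ' / 8 + Real.sqrt (2 ^ (3 * q) / (b : ℝ) ^ k)
          < Real.exp (-(c * n)) * γ' / 2 := by
  obtain ⟨lam, b, h1, h2, h3, h4, q₁, h5⟩ := in_q6 β' γ hβ hγ q₀ b₀
  have hb0 : (0 : ℝ) < b := by exact_mod_cast h2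
  have hb1 : (1 : ℝ) ≤ b := by exact_mod_cast h2
  have hK0 : (0 : ℝ) < K := by exact_mod_cast hK
  have hlog2 : 0 < Real.log 2 := Real.log_pos (by norm_num)
  have hlog96 : 0 < Real.log (96 * b) := Real.log_pos (by linarith)
  set κ : ℝ := min (β' / 2) (1 / (8 * Real.log (96 * b))) with hκ
  have hκ0 : 0 < κ := lt_min (by positivity) (by positivity)
  set c : ℝ := min (1 / (12 * b)) (κ * Real.log 2 / (12 * b * K)) with hc
  have hc0 : 0 < c := lt_min (by positivity) (by positivity)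
  -- the mass of the deep nodes
  have hlim : Tendsto (fun q : ℕ => Real.exp (((1 + 3 * b) / K + 1) * Real.log 2) *
      Real.exp (-(κ * Real.log 2 / (2 * K) * (q : ℝ)))) atTop (𝓝 0) := by
    have := (Real.tendsto_exp_neg_atTop_nhds_zero.comp
      ((tendsto_natCast_atTop_atTop (R := ℝ)).const_mul_atTop
        (by positivity : 0 < κ * Real.log 2 / (2 * K)))).const_mul
          (Real.exp (((1 + 3 * b) / K + 1) * Real.log 2))
    simpa using this
  obtain ⟨q₂, hq₂⟩ := (hlim.eventually (gt_mem_nhds (by positivity : (0 : ℝ) < γ / 4))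
    ).exists_forall_of_atTop
  refine ⟨lam, c, b, h1, hc0, h2, h3, h4, 3 * b * (q₁ + q₂ + 1), fun n hn => ?_⟩
  have hb3 : 0 < 3 * b := by omega
  set q : ℕ := n / (3 * b) with hq
  have hq1 : 3 * b * q ≤ n := Nat.mul_div_le n (3 * b)
  have hq2 : n < 3 * b * (q + 1) := by
    have := Nat.lt_mul_div_succ n hb3
    rw [← hq] at this
    exact this
  have hqq : q₁ + q₂ ≤ q := by
    by_contra hc
    push Not at hc
    have h6 : 3 * b * (q + 1) ≤ 3 * b * (q₁ + q₂ + 1) := Nat.mul_le_mul_left _ (by omega)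
    omega
  obtain ⟨g1, g2, g3, g4⟩ := h5 q (by omega)
  have hq12 : (12 : ℝ) ≤ q := by exact_mod_cast g2
  have hn1 : (n : ℝ) ≤ 3 * b * (q + 1) := by exact_mod_cast hq2.le
  have hn2 : (n : ℝ) ≤ 6 * b * q := by nlinarith
  set d₀ : ℕ := ⌊κ * q⌋₊ with hd₀
  have hd1 : (d₀ : ℝ) ≤ κ * q := Nat.floor_le (by positivity)
  have hd2 : κ * q < d₀ + 1 := Nat.lt_floor_add_one _
  have hcn1 : c * n ≤ q / 2 := by
    calc c * n ≤ 1 / (12 * b) * (6 * b * q) :=
          mul_le_mul (min_le_left _ _) hn2 (Nat.cast_nonneg _) (by positivity)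
      _ = q / 2 := by field_simp; norm_num
  have hcn2 : c * n ≤ κ * Real.log 2 / (2 * K) * q := by
    calc c * n ≤ κ * Real.log 2 / (12 * b * K) * (6 * b * q) :=
          mul_le_mul (min_le_right _ _) hn2 (Nat.cast_nonneg _) (by positivity)
      _ = κ * Real.log 2 / (2 * K) * q := by field_simp; norm_num
  refine ⟨q, d₀, g1, by omega, ?_, ?_, g3, ?_, Real.exp (q / 4), Real.exp (-(q / 2 : ℝ)),
    Real.exp_pos _, Real.exp_le_one_iff.2 (by linarith), (Real.exp_pos _).le, ?_,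
    fun d k r hd hk hr hr2 => ?_⟩
  · calc 3 * q * b = 3 * b * q := by ring
      _ ≤ n := hq1
  · calc n ≤ 3 * b * (q + 1) := hq2.le
      _ = 3 * q * b + 3 * b := by ring
  · have h6 : κ * q ≤ β' / 2 * q := mul_le_mul_of_nonneg_right (min_le_left _ _) (by linarith)
    linarith
  · have e1 : (96 * (b : ℝ)) ^ d₀ ≤ Real.exp (q / 8) := by
      rw [← Real.exp_log (by positivity : (0 : ℝ) < 96 * b), ← Real.exp_nat_mul]
      apply Real.exp_le_exp.2
      calc (d₀ : ℝ) * Real.log (96 * b) ≤ (1 / (8 * Real.log (96 * b)) * q)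
            * Real.log (96 * b) := by
            refine mul_le_mul_of_nonneg_right (hd1.trans ?_) hlog96.le
            exact mul_le_mul_of_nonneg_right (min_le_right _ _) (by linarith)
        _ = q / 8 := by field_simp
    have e2 : (1 + 2 * (1 / (96 * (b : ℝ)))) ^ n ≤ Real.exp (q / 8) := by
      have e3 : 1 + 2 * (1 / (96 * (b : ℝ))) ≤ Real.exp (2 * (1 / (96 * (b : ℝ)))) := by
        have := Real.add_one_le_exp (2 * (1 / (96 * (b : ℝ))))
        linarith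
      refine (pow_le_pow_left₀ (by positivity) e3 n).trans ?_
      rw [← Real.exp_nat_mul]
      apply Real.exp_le_exp.2
      calc (n : ℝ) * (2 * (1 / (96 * b))) ≤ (6 * b * q) * (2 * (1 / (96 * b))) :=
            mul_le_mul_of_nonneg_right hn2 (by positivity)
        _ = q / 8 := by field_simp; norm_num
    calc (96 * (b : ℝ)) ^ d₀ * (1 + 2 * (1 / (96 * b))) ^ n
        ≤ Real.exp (q / 8) * Real.exp (q / 8) :=
          mul_le_mul e1 e2 (by positivity) (Real.exp_pos _).le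
      _ = Real.exp (q / 4) := by
          rw [← Real.exp_add]
          congr 1
          ring
  · have hr3 : (r : ℝ) ≤ 2 * Real.exp (q / 2) := by
      have e2 : Real.exp (c * n) ≤ Real.exp (q / 2) := Real.exp_le_exp.2 hcn1
      have e3 : 1 ≤ Real.exp ((q : ℝ) / 2) := Real.one_le_exp (by positivity)
      linarith
    obtain ⟨f1, f2, f3⟩ := g4 (c * n) hcn1 d k r hd hk hr hr3
    refine ⟨f1, ?_, f3⟩
    have f4 : Real.exp (c * n) / 2 ^ ((d₀ - 3 * b) / K) ≤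
        Real.exp (((1 + 3 * b) / K + 1) * Real.log 2) *
          Real.exp (-(κ * Real.log 2 / (2 * K) * (q : ℝ))) := by
      have e1 : (2 : ℝ) ^ ((d₀ - 3 * b) / K) = Real.exp (((d₀ - 3 * b) / K : ℕ) * Real.log 2) := by
        rw [Real.exp_nat_mul, Real.exp_log (by norm_num)]
      rw [e1, ← Real.exp_sub, ← Real.exp_add]
      apply Real.exp_le_exp.2
      have e2 : d₀ ≤ 3 * b + K * ((d₀ - 3 * b) / K + 1) := by
        have := Nat.lt_mul_div_succ (d₀ - 3 * b) hK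
        omega
      have e3 : (d₀ : ℝ) ≤ 3 * b + K * (((d₀ - 3 * b) / K : ℕ) + 1) := by exact_mod_cast e2
      have e4 : κ * q / K ≤ (1 + 3 * b) / K + 1 + ((d₀ - 3 * b) / K : ℕ) := by
        rw [div_le_iff₀ hK0]
        have : ((1 + 3 * b) / K + 1 + (((d₀ - 3 * b) / K : ℕ) : ℝ)) * K
            = 1 + 3 * b + K * ((((d₀ - 3 * b) / K : ℕ) : ℝ) + 1) := by
          field_simp
          ring
        rw [this]
        linarith
      have e5 := mul_le_mul_of_nonneg_right e4 hlog2.le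
      have e6 : κ * q / K * Real.log 2 = 2 * (κ * Real.log 2 / (2 * K) * q) := by
        field_simp
      rw [e6] at e5
      linarith
    have f5 := hq₂ q (by omega)
    linarith

end BB
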