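import Pool.Agent.BB.Inst
import Pool.Agent.BB.Cube
import Pool.Agent.BB.Numbers6
import Pool.Agent.LIFT.FinalCore4

/-!
# BB: the instance, the pseudo-measure and its three properties

(rect) it is nearly nonnegative on rectangles, (deep) subcubes have small mass, (cert) rectangles
with a certificate have small mass.
-/

set_option autoImplicit false

open scoped BigOperators Matrix Kronecker

namespace BB

open LIFT SDX

/-- the set of the assigned variables -/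
def dom {n : ℕ} (ρ : Fin n → Option Bool) : Finset (Fin n) :=
  Finset.univ.filter fun v => (ρ v).isSome

theorem mem_dom {n : ℕ} {ρ : Fin n → Option Bool} {v : Fin n} : v ∈ dom ρ ↔ (ρ v).isSome := by
  simp [dom]

/-- the number of small partial assignments -/
theorem card_partial {n d : ℕ} (T : ℝ) (hT : 1 ≤ T) :
    (((Finset.univ : Finset (Fin n → Option Bool)).filter fun ρ => (dom ρ).card ≤ d).card : ℝ)
      ≤ T ^ d * (1 + 2 * (1 / T)) ^ n := by
  have hT0 : 0 < T := by linarith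
  let w : Option Bool → ℝ := fun o => if o.isSome then 1 / T else 1
  have hw : ∀ o, 0 ≤ w o := fun o => by
    simp only [w]
    split_ifs <;> positivity
  have h1 : ∑ ρ : Fin n → Option Bool, ∏ v, w (ρ v) = (1 + 2 * (1 / T)) ^ n := by
    have h2 := Finset.prod_univ_sum (fun _ : Fin n => (Finset.univ : Finset (Option Bool)))
      (fun _ o => w o)
    rw [Fintype.piFinset_univ] at h2
    rw [← h2, Finset.prod_const, Finset.card_univ, Fintype.card_fin]
    congr 1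
    rw [Fintype.sum_option]
    simp only [w, Fintype.sum_bool]
    simp
    ring
  have h3 : ∀ ρ : Fin n → Option Bool, ∏ v, w (ρ v) = (1 / T) ^ (dom ρ).card := by
    intro ρ
    simp only [w]
    rw [Finset.prod_ite, Finset.prod_const, Finset.prod_const_one, mul_one]
    rfl
  rw [← h1, Finset.mul_sum, Finset.card_eq_sum_ones, Nat.cast_sum]
  refine (Finset.sum_le_sum (fun ρ hρ => ?_)).trans
    (Finset.sum_le_univ_sum_of_nonneg fun ρ => mul_nonneg (by positivity)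
      (Finset.prod_nonneg fun v _ => hw _))
  rw [Finset.mem_filter] at hρ
  rw [h3, Nat.cast_one]
  calc (1 : ℝ) = T ^ (dom ρ).card * (1 / T) ^ (dom ρ).card := by
        rw [← mul_pow, mul_one_div_cancel hT0.ne', one_pow]
    _ ≤ T ^ d * (1 / T) ^ (dom ρ).card :=
        mul_le_mul_of_nonneg_right (pow_le_pow_right₀ hT hρ.2) (by positivity)

/-- the pseudo-density of an expanding XOR instance, with the description of its coefficients -/
theorem xor_pd6 {m M t w d : ℕ} (A : Fin M → Finset (Fin m)) (s : Fin M → Bool)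
    (ht : 1 ≤ t) (hd : 2 * d ≤ w) (hA : ∀ e, (A e).card = 3)
    (h1 : ∀ C : Finset (Fin M), C.Nonempty → C.card ≤ 2 * t → (odd A C).Nonempty)
    (h2 : ∀ C : Finset (Fin M), t < C.card → C.card ≤ 2 * t → w < (odd A C).card) :
    ∃ D : (Fin m → Bool) → ℝ, (∀ B, |SDX.coef B D| ≤ 1) ∧ (∀ y, |D y| ≤ 2 ^ m) ∧
      SDX.coef ∅ D = 1 ∧
      (∀ e B, B.card + 3 ≤ w → SDX.coef (symmDiff B (A e)) D = SDX.sg (s e) * SDX.coef B D) ∧
      (∀ B, coef B D ≠ 0 → ∃ C : Finset (Fin M), C.card ≤ t ∧ bsum A C = B) ∧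
      ∀ g ∈ SDX.Deg (Fin m) d, 0 ≤ ∑ y, D y * g y ^ 2 := by
  have hgap : ∀ C : Finset (Fin M), C.card ≤ 2 * t → (SDX.bsum A C).card ≤ w → C.card ≤ t := by
    intro C hC h
    by_contra hcon
    have h3 := h2 C (not_le.1 hcon) hC
    change w < (SDX.bsum A C).card at h3
    omega
  have hG : SDX.h8.Good A t d :=
    { inj := fun J hJ hne => h1 J hne hJ
      gap := fun J hJ h => hgap J hJ (h.trans hd) }
  refine ⟨SDX.xpd t A s, SDX.xpd_coef_le hG s, fun y => ?_, SDX.xpd_coef_empty hG s,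
    fun e B hB => LIFT.h8.xpd_inv s ht hA hG hgap e B hB,
    fun B hB => SDX.h8.exists_of_coef_xpd hB, fun g hg => SDX.xpd_sq hG s hg⟩
  have := SDX.xpd_bd hG s y
  rwa [Fintype.card_fin] at this

open LIFT.h93d

open Classical in
theorem final_core6 (ε γ : ℝ) (hε : 0 < ε) (hγ : 0 < γ) :
    ∃ (c : ℝ) (b : ℕ), 0 < c ∧ 0 < b ∧ ∃ n₀ : ℕ, ∀ n : ℕ, n₀ ≤ n →
      ∃ (m M d₀ : ℕ) (A : Fin M → Fin 3 → Fin m) (s : Fin M → Bool)
        (mu : (Fin m → Fin b) → (Fin m × Fin b → Bool) → ℝ) (P γ' θ ν : ℝ),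
      0 < m ∧ 0 < M ∧ m * b ≤ n ∧ n ≤ m * b + 3 * b ∧ 4 * M ≤ n ∧
      (∀ e, Function.Injective (A e)) ∧
      (∀ y : Fin m → Bool, (((Finset.univ : Finset (Fin M)).filter fun e =>
        ∏ t, SDX.sg (y (A e t)) = SDX.sg (s e)).card : ℝ) ≤ (1 / 2 + ε) * M) ∧
      (∀ S, ∑ x, mu S x = 2 ^ (m * b)) ∧
      0 ≤ γ' ∧ 0 ≤ θ ∧ θ ≤ γ / 2 ∧ 0 ≤ ν ∧ P * γ' + P * θ + Real.exp (c * n) * ν < γ ∧
      (((Finset.univ : Finset (Fin n → Option Bool)).filter fun ρ =>
        (dom ρ).card ≤ d₀).card : ℝ) ≤ P ∧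
      -- (rect)
      (∀ (u : (Fin m × Fin b → Bool) → ℝ) (v : (Fin m → Fin b) → ℝ), (∀ x, 0 ≤ u x ∧ u x ≤ 1) →
        (∀ S, 0 ≤ v S ∧ v S ≤ 1) →
        -(θ * ((b : ℝ) ^ m * 2 ^ (m * b))) ≤ ∑ S, ∑ x, v S * (u x * mu S x)) ∧
      -- (deep)
      (∀ (F : Finset (Fin m × Fin b)) (a : Fin m × Fin b → Bool) (S : Fin m → Fin b),
        d₀ ≤ F.card + 3 * b → F.card ≤ d₀ → ∑ x, ind F a x * mu S x ≤ 2 ^ (m * b) * ν) ∧
      -- (cert)
      ∀ (r : ℕ) (E : Type) [AddCommGroup E] [Module ℝ E]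
        (𝓐 : AffineSubspace ℝ (E × Matrix (Fin r) (Fin r) ℝ))
        (𝒳 : Finset (Fin m × Fin b → Bool)) (𝒮 : Finset (Fin m → Fin b))
        (pt : (Fin m × Fin b → Bool) → E × Matrix (Fin r) (Fin r) ℝ)
        (obj : (Fin m → Fin b) → (E × Matrix (Fin r) (Fin r) ℝ) →ᵃ[ℝ] ℝ),
        (r : ℝ) ≤ Real.exp (c * n) →
        (∀ x ∈ 𝒳, pt x ∈ 𝓐 ∧ (pt x).2.PosSemidef) →
        (∀ S ∈ 𝒮, ∀ x ∈ 𝒳, obj S (pt x) = 3 / 4 + (((Finset.univ : Finset (Fin M)).filter
          fun e => ∏ t, SDX.sg (SDX.rs S x (A e t)) = SDX.sg (s e)).card : ℝ) / (4 * M)) →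
        (∀ S ∈ 𝒮, ∀ p ∈ 𝓐, p.2.PosSemidef → obj S p < 1 - Real.exp (-(c * n))) →
        ∑ S ∈ 𝒮, ∑ x ∈ 𝒳, mu S x ≤ γ' * ((b : ℝ) ^ m * 2 ^ (m * b)) := by
  obtain ⟨Δ, hΔ, β, hβ, q₁, hinst⟩ := exists_instance6 ε hε
  set K : ℕ := (3 * Δ + 1) ^ 5 with hKdef
  have hK : 0 < K := by positivity
  obtain ⟨lam, c, b, hlam, hc, hb, hbb, hlb, n₀, hnum⟩ :=
    numbers6 (β / 16) γ (by positivity) hγ q₁ (2 * Δ) K hK
  refine ⟨c, b, hc, hb, n₀, fun n hn => ?_⟩
  obtain ⟨q, d₀, hq₀, hq, hqn, hnq, h32, hdq, P, γ', hγ', hγ'1, hP, hcount, hfin⟩ := hnum n hn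
  obtain ⟨a, s, hsat, hexp, hdeg⟩ := hinst q hq₀
  have hM : 0 < Δ * q := Nat.mul_pos hΔ hq
  have hq' : (0 : ℝ) < q := by exact_mod_cast hq
  have hΔ' : (0 : ℝ) < Δ := by exact_mod_cast hΔ
  have hb' : (0 : ℝ) < b := by exact_mod_cast hb
  have hb1 : (1 : ℝ) ≤ b := by exact_mod_cast hb
  -- the pseudo-density
  set t : ℕ := ⌊β * q / 2⌋₊ with ht
  set w : ℕ := t / 4 with hw
  set d : ℕ := w / 2 with hd
  have h1 : (t : ℝ) ≤ β * q / 2 := Nat.floor_le (by positivity)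
  have h2 : β * q / 2 < t + 1 := Nat.lt_floor_add_one _
  have h3 : 255 ≤ t := by
    have : (255 : ℝ) < t + 1 := by linarith
    have : 255 < t + 1 := by exact_mod_cast this
    omega
  have hβd : β / 16 * q ≤ d + 1 := by
    have h4 : t + 1 ≤ 8 * (d + 1) := by omega
    have h5 : (t : ℝ) + 1 ≤ 8 * (d + 1) := by exact_mod_cast h4
    linarith
  have hβk : β / 16 * q ≤ ((w - 2 : ℕ) : ℝ) := by
    have h4 : t + 1 ≤ 8 * (w - 2) := by omega
    have h5 : (t : ℝ) + 1 ≤ 8 * ((w - 2 : ℕ) : ℝ) := by exact_mod_cast h4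
    linarith
  have hd₀ : d₀ ≤ d := by
    have : (d₀ : ℝ) ≤ d := by linarith
    exact_mod_cast this
  have hexpand : SDX.h8.Expand (vars a) (2 * t) := by
    intro C hCt
    have h4 := hexp C (by
      have : (C.card : ℝ) ≤ 2 * t := by exact_mod_cast hCt
      linarith)
    rw [← odd_card] at h4
    exact h4
  have hdegree : ∀ v : Fin (3 * q),
      ((Finset.univ : Finset (Fin (Δ * q))).filter fun e => v ∈ vars a e).card ≤ Δ := by
    intro v
    simp only [mem_vars]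
    exact hdeg _ _
  have hball : ∀ v, (ball (vars a) 5 v).card ≤ K := card_ball (vars_card a) hdegree 5
  obtain ⟨D, hD1, hD2, hD3, hD4, hDC, hD5⟩ := xor_pd6 (t := t) (w := w) (d := d) (vars a) s
    (by omega) (by omega) (vars_card a) (fun C hC hCt => by
      have h6 : C.card ≤ 2 * (odd (vars a) C).card := hexpand C hCt
      have h7 := hC.card_pos
      exact Finset.card_pos.1 (by omega))
    (fun C hC hCt => by
      have h6 : C.card ≤ 2 * (odd (vars a) C).card := hexpand C hCt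
      omega)
  have h2pos : (0 : ℝ) < 2 ^ (3 * q) := by positivity
  have hDsum : ∑ y, D y = 2 ^ (3 * q) := by
    have h6 := hD3
    rw [coef, Fintype.card_fin, div_eq_iff h2pos.ne', one_mul] at h6
    simpa [chr] using h6
  -- the numbers
  set θ : ℝ := 2 * 2 ^ (3 * q) / lam ^ (d + 1) * Real.sqrt (24 ^ (3 * q)) with hθ
  obtain ⟨hθγ, htot, -⟩ := hfin d (w - 2) 1 hβd hβk one_pos (by
    have := Real.exp_pos (c * n)
    push_cast
    linarith)
  refine ⟨3 * q, Δ * q, d₀, fun e => ve a e, s, fun S x => D (rs S x), P, γ', θ,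
    1 / 2 ^ ((d₀ - 3 * b) / K), by positivity, hM, hqn, hnq, ?_, fun e => (ve a e).injective,
    ?_, ?_, hγ'.le, by positivity, hθγ, by positivity, ?_,
    (card_partial (96 * b) (by linarith)).trans hcount, ?_, ?_, ?_⟩
  · calc 4 * (Δ * q) = q * (2 * (2 * Δ)) := by ring
      _ ≤ q * (2 * b) := Nat.mul_le_mul_left _ (Nat.mul_le_mul_left _ hbb)
      _ ≤ 3 * q * b := by nlinarith [Nat.zero_le (q * b)]
      _ ≤ n := hqn
  · intro y
    have h1 := hsat (y ∘ finProdFinEquiv)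
    push_cast
    refine le_trans (le_of_eq ?_) h1
    congr 1
  · intro S
    have h6 := sum_rs S D
    rw [hDsum] at h6
    have h7 : (2 : ℝ) ^ (3 * q) * (∑ x : Fin (3 * q) × Fin b → Bool, D (rs S x))
        = 2 ^ (3 * q) * 2 ^ (3 * q * b) := by rw [h6]; ring
    exact mul_left_cancel₀ h2pos.ne' h7
  · rw [mul_one_div]
    exact htot
  · intro u v hu hv
    have h6 := rect4 (m := 3 * q) (d := d) hb lam (2 ^ (3 * q)) hlam hlb h2pos D hD2 hD5 u hu v hv
    refine le_trans (neg_le_neg (le_of_eq ?_)) h6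
    rw [hθ]
    ring
  · intro F a' S hF1 hF2
    have h6 := mass_cube_le (vars_card a) hexpand hball D
      (fun B hB => by
        obtain ⟨C, hC, hCB⟩ := hDC B hB
        exact ⟨C, by omega, hCB⟩) hD3 hD5 S F (hF2.trans hd₀) a'
    have h7 : (d₀ - 3 * b) / K ≤ F.card / K := Nat.div_le_div_right (by omega)
    have h8 : (2 : ℝ) ^ ((d₀ - 3 * b) / K) ≤ 2 ^ (F.card / K) :=
      pow_le_pow_right₀ (by norm_num) h7
    have h9 : (0 : ℝ) < 2 ^ (F.card / K) := by positivity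
    rw [mul_one_div, le_div_iff₀ (by positivity)]
    rcases le_or_gt 0 (∑ x, ind F a' x * D (rs S x)) with h10 | h10
    · calc (∑ x, ind F a' x * D (rs S x)) * 2 ^ ((d₀ - 3 * b) / K)
          ≤ (∑ x, ind F a' x * D (rs S x)) * 2 ^ (F.card / K) :=
            mul_le_mul_of_nonneg_left h8 h10
        _ ≤ 2 ^ (3 * q * b) := by rw [mul_comm]; exact h6
    · have h11 : (0 : ℝ) < 2 ^ ((d₀ - 3 * b) / K) := by positivity
      have h12 := mul_neg_of_neg_of_pos h10 h11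
      have h13 : (0 : ℝ) < 2 ^ (3 * q * b) := by positivity
      linarith
  intro r E _ _ 𝓐 𝒳 𝒮 pt obj hr hpt hval hno
  by_contra hrect
  push Not at hrect
  set δ : ℝ := Real.exp (-(c * n)) with hδdef
  have hδ : 0 < δ := Real.exp_pos _
  have hδ1 : δ ≤ 1 := Real.exp_le_one_iff.2 (by
    have : 0 ≤ c * n := by positivity
    linarith)
  -- the factorisation
  set τ : ℝ := δ * γ' / (8 * 2 ^ (3 * q)) with hτ
  have hτ0 : 0 < τ := by positivity
  have hτ1 : τ ≤ 1 / 4 := by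
    rw [hτ, div_le_iff₀ (by positivity)]
    have h10 : (1 : ℝ) ≤ 2 ^ (3 * q) := one_le_pow₀ (by norm_num)
    have h11 : δ * γ' ≤ 1 := mul_le_one₀ hδ1 hγ'.le hγ'1
    linarith
  have hτ2 : 2 ^ (3 * q) * τ = δ * γ' / 8 := by
    rw [hτ]
    field_simp
  obtain ⟨P₀, Q, hP₀, hQ, hP0, hQ0, hPQ⟩ := factor5 𝓐 δ 𝒳 pt hpt 𝒮
    (fun S => AffineMap.const ℝ _ (1 : ℝ) - obj S)
    (fun S x => 1 - (3 / 4 + (((Finset.univ : Finset (Fin (Δ * q))).filter
          fun e => ∏ t, SDX.sg (SDX.rs S x (ve a e t)) = SDX.sg (s e)).card : ℝ)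
            / (4 * (Δ * q : ℕ))))
    (fun S hS x hx => by
      rw [← hval S hS x hx]
      rfl)
    (fun S hS p hp hp2 => by
      have h12 := hno S hS p hp hp2
      change δ ≤ 1 - obj S p
      linarith) τ hτ0
  have hlow : ∀ A : Finset (Fin (3 * q)), A.card < w - 2 →
      coef A (fun y => D y * ff a s 0 y) = 0 := by
    intro A hA
    rw [coef_low hM a s 0 D A fun e => hD4 e A (by omega), zero_mul, neg_zero]
  refine main4 (m := 3 * q) (b := b) (r := r + 1) (d := d) hb (Nat.succ_pos r) lam (2 ^ (3 * q))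
    γ' δ τ (Real.sqrt (2 ^ (3 * q) / (b : ℝ) ^ (w - 2)))
    hlam hlb h2pos hγ' hγ'1 hδ hτ0.le hτ1 D (ff a s 0) hD2 hD5 hDsum ?_ ?_ ?_ 𝒳 𝒮 hrect.le
    P₀ hP₀ Q hQ hP0 hQ0 ?_ ?_
  · intro y
    rw [← frac hM]
    have h13 : (0 : ℝ) ≤ (((Finset.univ : Finset (Fin (Δ * q))).filter fun e =>
      ∏ t, sg (y (ve a e t)) = sg (s e)).card : ℝ) / (4 * (Δ * q : ℕ)) := by positivity
    linarith
  · have h14 := hlow ∅ (by rw [Finset.card_empty]; omega)
    rw [coef, Fintype.card_fin, div_eq_iff h2pos.ne', zero_mul] at h14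
    simpa only [chr, Finset.prod_empty, mul_one] using h14
  · refine Real.sqrt_le_sqrt ?_
    have h14 := var_le (k := w - 2) hb 0 (fun y => D y * ff a s 0 y)
      (fun A hA => by rw [hlow A hA, abs_zero])
      (coef_le hM a s 0 le_rfl (by norm_num) D hD1)
    refine h14.trans (le_of_eq ?_)
    ring
  · intro S hS x hx
    rw [← frac hM, sub_zero]
    exact hPQ S hS x hx
  · rw [hτ2]
    exact (hfin d (w - 2) (r + 1) hβd hβk (Nat.succ_pos r) (by push_cast; linarith)).2.2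

end BB
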