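import Pool.Agent.BB.Core6

/-!
# BB: from a family of truncated search trees to a bound of the mass of the whole rectangle
-/

set_option autoImplicit false

open scoped BigOperators

namespace BB

open Finset

/-- **Combination.** For each `S ∈ 𝒮` the points `x` are distributed to nodes `node S x`; a node
`ρ` receives the points which agree with it. -/
theorem combine {Y X R : Type} [Fintype Y] [Fintype X] [DecidableEq R] (mu : Y → X → ℝ)
    (T θ γ' ν P K : ℝ) (hT : 0 ≤ T) (hθ : 0 ≤ θ) (hγ' : 0 ≤ γ') (hν : 0 ≤ ν) (hK : 0 ≤ K)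
    (𝒮 : Finset Y) (𝒳 : Finset X) (node : Y → X → R) (agree : R → X → Prop)
    (h1 : ∀ S ∈ 𝒮, ∀ x, agree (node S x) x)
    (h2 : ∀ S ∈ 𝒮, ∀ x x', agree (node S x) x' → node S x' = node S x)
    (Nd : Finset R) (hNd : ∀ S ∈ 𝒮, ∀ x, node S x ∈ Nd) (hP : (Nd.card : ℝ) ≤ P)
    (deep : R → Prop)
    (hcert : ∀ ρ ∈ Nd, ¬ deep ρ → ∀ (𝒮' : Finset Y) (𝒳' : Finset X),
      (∀ S ∈ 𝒮', S ∈ 𝒮 ∧ ∃ x, node S x = ρ) → (∀ x ∈ 𝒳', x ∈ 𝒳 ∧ agree ρ x) →
      ∑ S ∈ 𝒮', ∑ x ∈ 𝒳', mu S x ≤ γ' * (Fintype.card Y * T))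
    (hdeep : ∀ ρ ∈ Nd, deep ρ → ∀ S, ∀ 𝒳' : Finset X, (∀ x, x ∈ 𝒳' ↔ agree ρ x) →
      ∑ x ∈ 𝒳', mu S x ≤ T * ν)
    (hcount : ∀ S ∈ 𝒮, ∀ 𝒬 : Finset R, (∀ ρ ∈ 𝒬, deep ρ ∧ ∃ x, node S x = ρ) → (𝒬.card : ℝ) ≤ K)
    (hrect : ∀ (u : X → ℝ) (v : Y → ℝ), (∀ x, 0 ≤ u x ∧ u x ≤ 1) → (∀ S, 0 ≤ v S ∧ v S ≤ 1) →
      -(θ * (Fintype.card Y * T)) ≤ ∑ S, ∑ x, v S * (u x * mu S x)) :
    ∑ S ∈ 𝒮, ∑ x ∈ 𝒳, mu S x ≤ (P * γ' + P * θ + K * ν) * (Fintype.card Y * T) := by
  classical
  set W : ℝ := Fintype.card Y * T with hW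
  have hW0 : 0 ≤ W := by positivity
  let 𝒮ρ : R → Finset Y := fun ρ => 𝒮.filter fun S => ∃ x, node S x = ρ
  let 𝒳ρ : R → Finset X := fun ρ => 𝒳.filter fun x => agree ρ x
  -- the partition
  have hpart : ∑ S ∈ 𝒮, ∑ x ∈ 𝒳, mu S x = ∑ ρ ∈ Nd, ∑ S ∈ 𝒮ρ ρ, ∑ x ∈ 𝒳ρ ρ, mu S x := by
    have e1 : ∀ S ∈ 𝒮, ∑ x ∈ 𝒳, mu S x
        = ∑ ρ ∈ Nd, if ∃ x, node S x = ρ then ∑ x ∈ 𝒳ρ ρ, mu S x else 0 := by
      intro S hS
      rw [← sum_fiberwise_of_maps_to (fun x _ => hNd S hS x)]
      refine sum_congr rfl fun ρ _ => ?_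
      split_ifs with h
      · obtain ⟨x₀, rfl⟩ := h
        refine sum_congr ?_ fun _ _ => rfl
        ext x
        simp only [𝒳ρ, mem_filter]
        refine and_congr_right fun _ => ⟨fun h => ?_, fun h => h2 S hS x₀ x h⟩
        rw [← h]
        exact h1 S hS x
      · refine sum_eq_zero fun x hx => ?_
        rw [mem_filter] at hx
        exact absurd ⟨x, hx.2⟩ h
    rw [sum_congr rfl e1, sum_comm]
    refine sum_congr rfl fun ρ _ => ?_
    simp only [𝒮ρ]
    rw [sum_filter]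
  -- one node
  have hone : ∀ ρ ∈ Nd, ∑ S ∈ 𝒮ρ ρ, ∑ x ∈ 𝒳ρ ρ, mu S x
      ≤ γ' * W + θ * W + (if deep ρ then T * ν * ((𝒮ρ ρ).card : ℝ) else 0) := by
    intro ρ hρ
    by_cases hd : deep ρ
    · rw [if_pos hd]
      have e1 := hrect (fun x => if agree ρ x ∧ x ∉ 𝒳 then 1 else 0)
        (fun S => if S ∈ 𝒮ρ ρ then 1 else 0) (fun x => by split_ifs <;> norm_num)
        (fun S => by split_ifs <;> norm_num)
      have e2 : ∑ S, ∑ x, (if S ∈ 𝒮ρ ρ then (1 : ℝ) else 0) *
          ((if agree ρ x ∧ x ∉ 𝒳 then 1 else 0) * mu S x)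
          = ∑ S ∈ 𝒮ρ ρ, ∑ x ∈ univ.filter (fun x => agree ρ x ∧ x ∉ 𝒳), mu S x := by
        rw [← sum_filter_add_sum_filter_not univ (fun S => S ∈ 𝒮ρ ρ)]
        have e3 : ∑ S ∈ univ.filter (fun S => ¬ S ∈ 𝒮ρ ρ), ∑ x,
            (if S ∈ 𝒮ρ ρ then (1 : ℝ) else 0) *
              ((if agree ρ x ∧ x ∉ 𝒳 then 1 else 0) * mu S x) = 0 := by
          refine sum_eq_zero fun S hS => ?_
          rw [mem_filter] at hS
          simp [hS.2]
        rw [e3, add_zero]
        have e4 : univ.filter (fun S => S ∈ 𝒮ρ ρ) = 𝒮ρ ρ := by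
          ext S
          simp
        rw [e4]
        refine sum_congr rfl fun S hS => ?_
        rw [sum_filter]
        refine sum_congr rfl fun x _ => ?_
        rw [if_pos hS, one_mul]
        split_ifs <;> simp
      rw [e2] at e1
      have e3 : ∀ S, ∑ x ∈ 𝒳ρ ρ, mu S x
          + ∑ x ∈ univ.filter (fun x => agree ρ x ∧ x ∉ 𝒳), mu S x ≤ T * ν := by
        intro S
        rw [← sum_union]
        · refine hdeep ρ hρ hd S _ fun x => ?_
          simp only [𝒳ρ, mem_union, mem_filter, mem_univ, true_and]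
          by_cases hx : x ∈ 𝒳 <;> simp [hx]
        · rw [disjoint_left]
          intro x hx hx'
          rw [mem_filter] at hx hx'
          exact hx'.2.2 hx.1
      have e4 : ∑ S ∈ 𝒮ρ ρ, ∑ x ∈ 𝒳ρ ρ, mu S x
          + ∑ S ∈ 𝒮ρ ρ, ∑ x ∈ univ.filter (fun x => agree ρ x ∧ x ∉ 𝒳), mu S x
          ≤ T * ν * ((𝒮ρ ρ).card : ℝ) := by
        rw [← sum_add_distrib]
        refine (sum_le_sum fun S _ => e3 S).trans ?_
        rw [sum_const, nsmul_eq_mul, mul_comm]
      have e5 : 0 ≤ γ' * W := by positivity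
      linarith
    · rw [if_neg hd, add_zero]
      have e1 := hcert ρ hρ hd (𝒮ρ ρ) (𝒳ρ ρ) (fun S hS => mem_filter.1 hS)
        (fun x hx => mem_filter.1 hx)
      have e5 : 0 ≤ θ * W := by positivity
      linarith
  rw [hpart]
  refine (sum_le_sum hone).trans ?_
  rw [sum_add_distrib, sum_const, nsmul_eq_mul]
  -- the deep nodes
  have hdeepsum : ∑ ρ ∈ Nd, (if deep ρ then T * ν * ((𝒮ρ ρ).card : ℝ) else 0) ≤ K * ν * W := by
    have e1 : ∀ ρ ∈ Nd, (if deep ρ then T * ν * ((𝒮ρ ρ).card : ℝ) else 0)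
        = T * ν * ∑ S ∈ 𝒮, if deep ρ ∧ ∃ x, node S x = ρ then (1 : ℝ) else 0 := by
      intro ρ _
      by_cases hd : deep ρ
      · rw [if_pos hd]
        congr 1
        simp only [𝒮ρ, hd, true_and]
        rw [card_filter]
        push_cast
        rfl
      · rw [if_neg hd]
        simp [hd]
    rw [sum_congr rfl e1, ← mul_sum, sum_comm]
    have e2 : ∀ S ∈ 𝒮, ∑ ρ ∈ Nd, (if deep ρ ∧ ∃ x, node S x = ρ then (1 : ℝ) else 0) ≤ K := by
      intro S hS
      rw [sum_boole]
      exact hcount S hS _ fun ρ hρ => (mem_filter.1 hρ).2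
    have e3 : ∑ S ∈ 𝒮, ∑ ρ ∈ Nd, (if deep ρ ∧ ∃ x, node S x = ρ then (1 : ℝ) else 0)
        ≤ Fintype.card Y * K := by
      refine (sum_le_sum e2).trans ?_
      rw [sum_const, nsmul_eq_mul]
      refine mul_le_mul_of_nonneg_right ?_ hK
      exact_mod_cast card_le_univ 𝒮
    calc _ ≤ T * ν * (Fintype.card Y * K) := mul_le_mul_of_nonneg_left e3 (by positivity)
      _ = K * ν * W := by rw [hW]; ring
  have hPW : (Nd.card : ℝ) * (γ' * W + θ * W) ≤ P * (γ' * W + θ * W) :=
    mul_le_mul_of_nonneg_right hP (by positivity)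
  linarith

/-- the points of the small cube which agree with a partial assignment of the big cube -/
theorem agree_cube {n m b : ℕ} (e : Fin m × Fin b ↪ Fin n) (hn : n ≤ m * b + 3 * b)
    (z : Fin n → Bool) (ρ : Fin n → Option Bool) :
    (∀ x : Fin m × Fin b → Bool, ¬ ∀ v, ρ v = none ∨
      ρ v = some (xor (Function.extend e x (fun _ => false) v) (z v))) ∨
    ∃ (F : Finset (Fin m × Fin b)) (a : Fin m × Fin b → Bool),
      (dom ρ).card ≤ F.card + 3 * b ∧ F.card ≤ (dom ρ).card ∧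
      ∀ x : Fin m × Fin b → Bool, (∀ v, ρ v = none ∨
        ρ v = some (xor (Function.extend e x (fun _ => false) v) (z v)))
          ↔ ∀ p ∈ F, x p = a p := by
  classical
  by_cases hout : ∀ v, (¬ ∃ p, e p = v) → ρ v = none ∨ ρ v = some (z v)
  · right
    set F : Finset (Fin m × Fin b) := univ.filter fun p => e p ∈ dom ρ with hF
    refine ⟨F, fun p => xor ((ρ (e p)).getD false) (z (e p)), ?_, ?_, fun x => ?_⟩
    · have h1 : dom ρ ⊆ F.map e ∪ ((univ : Finset (Fin m × Fin b)).map e)ᶜ := by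
        intro v hv
        rw [mem_union, mem_compl]
        by_cases h : ∃ p, e p = v
        · obtain ⟨p, rfl⟩ := h
          exact Or.inl (mem_map_of_mem e (mem_filter.2 ⟨mem_univ _, hv⟩))
        · refine Or.inr fun h' => h ?_
          obtain ⟨p, -, hp⟩ := mem_map.1 h'
          exact ⟨p, hp⟩
      refine (card_le_card h1).trans ((card_union_le _ _).trans ?_)
      rw [card_map, card_compl, card_map, card_univ, Fintype.card_prod, Fintype.card_fin,
        Fintype.card_fin, Fintype.card_fin]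
      omega
    · rw [← card_map e]
      refine card_le_card fun v hv => ?_
      obtain ⟨p, hp, rfl⟩ := mem_map.1 hv
      exact (mem_filter.1 hp).2
    · constructor
      · intro h p hp
        rw [hF, mem_filter, mem_dom] at hp
        rcases h (e p) with h' | h'
        · rw [h'] at hp
          exact absurd hp.2 (by simp)
        · rw [e.injective.extend_apply] at h'
          simp only [h', Option.getD_some]
          cases x p <;> cases z (e p) <;> rfl
      · intro h v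
        by_cases hv : ∃ p, e p = v
        · obtain ⟨p, rfl⟩ := hv
          rw [e.injective.extend_apply]
          by_cases hp : e p ∈ dom ρ
          · right
            have h1 : x p = xor ((ρ (e p)).getD false) (z (e p)) :=
              h p (mem_filter.2 ⟨mem_univ _, hp⟩)
            rw [mem_dom, Option.isSome_iff_exists] at hp
            obtain ⟨a, ha⟩ := hp
            rw [ha] at h1 ⊢
            rw [h1]
            simp only [Option.getD_some]
            cases a <;> cases z (e p) <;> rfl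
          · left
            rw [mem_dom] at hp
            simpa using hp
        · have h1 : Function.extend e x (fun _ => false) v = false :=
            Function.extend_apply' x (fun _ => false) v hv
          rw [h1]
          have := hout v hv
          simpa using this
  · left
    push Not at hout
    obtain ⟨v, hv, h1, h2⟩ := hout
    intro x h
    have h3 : Function.extend e x (fun _ => false) v = false :=
      Function.extend_apply' x (fun _ => false) v (by
        rintro ⟨p, hp⟩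
        exact hv p hp)
    rcases h v with h4 | h4
    · exact h1 h4
    · rw [h3] at h4
      exact h2 (by simpa using h4)

end BB
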