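import Pool.Agent.SALES.Inst

/-!
# BB: random XOR instances of bounded degree with the expansion `|C| ≤ 2 |odd C|`
-/

set_option autoImplicit false

open scoped BigOperators

namespace BB

open SALES.h8f in
theorem exists_instance6 (ε : ℝ) (hε : 0 < ε) :
    ∃ Δ : ℕ, 0 < Δ ∧ ∃ β > (0 : ℝ), ∃ q₀ : ℕ, ∀ q : ℕ, q₀ ≤ q →
      ∃ (a : Fin (Δ * q) → Fin 3 → Fin q) (s : Fin (Δ * q) → Bool),
        (∀ y : Fin 3 × Fin q → Bool,
          (((Finset.univ : Finset (Fin (Δ * q))).filter fun e =>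
            ∏ t : Fin 3, SDX.sg (y (t, a e t)) = SDX.sg (s e)).card : ℝ)
              ≤ (1 / 2 + ε) * (Δ * q)) ∧
        (∀ C : Finset (Fin (Δ * q)), (C.card : ℝ) ≤ β * q →
          C.card ≤ 2 * ((Finset.univ : Finset (Fin 3 × Fin q)).filter fun v =>
            Odd (C.filter fun e => a e v.1 = v.2).card).card) ∧
        ∀ t v, ((Finset.univ : Finset (Fin (Δ * q))).filter fun e => a e t = v).card ≤ Δ := by
  classical
  obtain ⟨D, hD⟩ := exists_nat_gt (3 * Real.log 2 / (2 * ε ^ 2))
  have hD0 : 0 < D := by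
    rcases Nat.eq_zero_or_pos D with h | h
    · exfalso
      rw [h] at hD
      have : 0 < 3 * Real.log 2 / (2 * ε ^ 2) :=
        div_pos (mul_pos (by norm_num) (Real.log_pos (by norm_num))) (by positivity)
      push_cast at hD
      linarith
    · exact h
  have hD1 : (0 : ℝ) < D := by exact_mod_cast hD0
  set δ : ℝ := 1 / (8 * Real.exp 3 * D) with hδ
  have hδ0 : 0 < δ := by positivity
  have hδD : 8 * Real.exp 3 * D * δ ≤ 1 := by
    rw [hδ, mul_one_div_cancel (by positivity)]
  refine ⟨D, hD0, δ ^ 4, by positivity, 1, fun q hq => ?_⟩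
  have hq' : (0 : ℝ) < q := by exact_mod_cast hq
  obtain ⟨π, hF⟩ := expand_exists D q δ hD0 hq hδ0 hδD ⌊δ ^ 4 * q⌋₊ (by
    have := Nat.floor_le (a := δ ^ 4 * (q : ℝ)) (by positivity)
    have : 0 < δ ^ 4 * q := by positivity
    linarith)
  obtain ⟨s, hs⟩ := SDX.h8.signs_exist (SDX.h8.tri (eqs π)) ε hε (by
    rw [Fintype.card_fin, Fintype.card_prod, Fintype.card_fin, Fintype.card_fin]
    rw [div_lt_iff₀ (by positivity)] at hD
    push_cast
    have := mul_lt_mul_of_pos_left hD hq'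
    nlinarith)
  refine ⟨eqs π, s, fun y => ?_, fun C hCc => ?_, fun t v => degree π t v⟩
  · have h1 := hs y
    rw [Fintype.card_fin] at h1
    have h2 : ∀ e, SDX.chr (SDX.h8.tri (eqs π) e) y = ∏ t : Fin 3, SDX.sg (y (t, eqs π e t)) :=
      fun e => by simp [SDX.chr, SDX.h8.tri, Finset.prod_map]
    simp only [h2] at h1
    push_cast at h1
    convert h1 using 3
  · have h1 := hF C (Nat.le_floor hCc)
    have h2 : SDX.bsum (SDX.h8.tri (eqs π)) C
        = (Finset.univ : Finset (Fin 3 × Fin q)).filter fun v =>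
          Odd (C.filter fun e => eqs π e v.1 = v.2).card := by
      ext v
      rw [SDX.h8.mem_bsum, Finset.mem_filter]
      simp only [SDX.h8.mem_tri, Finset.mem_univ, true_and]
    rw [h2] at h1
    exact h1

end BB
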